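import Mathlib
import Pool.Agent.H25.HarbDefs
import Pool.Agent.H25.Harb3

namespace Pool.Agent.Results.MP_f9a021_co.PrimeRank

open H25.Harb

theorem result (q : ℕ) (hq : q.Prime) (hq3 : 3 ≤ q) : ∃ k0 : ℕ, ∀ k : ℕ, k0 ≤ k →
    (∀ r : ℕ, r.Prime → r ∣ k → q ^ 2 < r) →
    AddMonoid.exponent (ZMod q × ZMod (q * k)) = q * k ∧
    tau (ZMod q × ZMod (q * k)) (q * k) ≤ q * k + q ∧
    ((∃ D : ℕ, D ∣ k ∧ q ∣ D + 1) → tau (ZMod q × ZMod (q * k)) (q * k) = q * k + q) :=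
  main q hq (by omega)

end Pool.Agent.Results.MP_f9a021_co.PrimeRank
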